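import Pool.Agent.H47.OP.E3
import Pool.Agent.H35.CX.Stm
import Pool.Agent.H35.FY.Two
import Pool.Agent.H89.ML.Ctx

/-!
# Abstract contexts from a closed left context and an open right context
-/

set_option autoImplicit false

namespace Pool.Agent.H47.OP

open Pool.Agent.H35 (FC.IsCode FC.Facts FC.Tiles FC.Star FC.star_nil FC.star_append
  FC.star_of_mem FC.split FC.cut)

variable {α : Type} {C : Set (List α)} {l r : List α}

/-- some word behind `r` gives a nonempty completion in `C*` -/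
theorem comp_ne (hS : Ctx C l r) (w : List α) :
    ∃ z : List α, z ≠ [] ∧ l ++ (w ++ (r ++ z)) ∈ FC.Star C := by
  obtain ⟨v, ⟨X0, p0, hX0, hp0, e0, hc0⟩, z0, c0, hcs, e⟩ := hS.ex w
  obtain ⟨-, k, -, hk, -⟩ := last_cw hS.lmem hS.lne
  have hkn : k ≠ [] := by
    rintro rfl
    exact hS.code.1 hk
  refine ⟨z0 ++ k, by simp [hkn], ?_⟩
  have h3 : l ++ (w ++ (r ++ (z0 ++ k))) = X0 ++ ((p0 ++ v) ++ (c0 ++ k)) := by
    calc l ++ (w ++ (r ++ (z0 ++ k))) = (l ++ w) ++ ((r ++ z0) ++ k) := by
          simp only [List.append_assoc]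
      _ = (X0 ++ p0) ++ ((v ++ c0) ++ k) := by rw [e0, e]
      _ = _ := by simp only [List.append_assoc]
  rw [h3]
  exact FC.star_append hX0 (FC.star_append (FC.star_of_mem hc0)
    (FC.star_append hcs (FC.star_of_mem hk)))

theorem exists_cw (hS : Ctx C l r) : ∃ k ∈ C, k ≠ [] := by
  obtain ⟨-, k, -, hk, -⟩ := last_cw hS.lmem hS.lne
  refine ⟨k, hk, ?_⟩
  rintro rfl
  exact hS.code.1 hk

/-- A covered word has no factorization. -/
theorem cover_no_fact' (hS : Ctx C l r) {g f w : List α} (hw : w ∈ H35.CX.No C l r g f)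
    {t : List α × List α × List α}
    (ht : t ∈ FC.Facts (H35.FS.Aset C l g) (FC.Star C) (H35.CX.Bo C r f) w) : False := by
  obtain ⟨z, X, p, s, c, hX, hcs, hp, hs, e1, e2, hc⟩ := hw
  obtain ⟨⟨X', p', hX', hp', e1', hc'⟩, hK, ⟨z', s', c', hcs', hs', e2', hb⟩, hw'⟩ := ht
  have l1 := congrArg List.length e1
  have l1' := congrArg List.length e1'
  have lw := congrArg List.length hw'
  have hp0 : 0 < p.length := List.length_pos_iff.2 hp
  have hs0 : 0 < s.length := List.length_pos_iff.2 hs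
  have key := ocut hS (w := g ++ w ++ f) (z := z') (z' := z) (x := X' ++ (p' ++ t.1))
    (y := t.2.1 ++ ((t.2.2 ++ s') ++ c')) (X := X) (c := p ++ w ++ s) (Y := c)
    (FC.star_append hX' (FC.star_of_mem hc'))
    (FC.star_append hK (FC.star_append (FC.star_of_mem hb) hcs')) hX hc hcs
    (by
      calc l ++ (g ++ w ++ f) ++ (r ++ z') = (l ++ g) ++ w ++ (f ++ (r ++ z')) := by
            simp only [List.append_assoc]
        _ = (X' ++ p') ++ (t.1 ++ (t.2.1 ++ t.2.2)) ++ (s' ++ c') := by rw [e1', e2', hw']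
        _ = _ := by simp only [List.append_assoc])
    (by
      calc l ++ (g ++ w ++ f) ++ (r ++ z) = (l ++ g) ++ w ++ (f ++ (r ++ z)) := by
            simp only [List.append_assoc]
        _ = (X ++ p) ++ w ++ (s ++ c) := by rw [e1, e2]
        _ = _ := by simp only [List.append_assoc])
    (by
      simp only [List.length_append] at l1' lw ⊢
      omega)
  simp only [List.length_append] at l1 l1' lw key
  omega

/-- Comparison of two factorizations. -/
theorem fact_le' (hS : Ctx C l r) {g f w : List α} {t t' : List α × List α × List α}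
    (ht : t ∈ FC.Facts (H35.FS.Aset C l g) (FC.Star C) (H35.CX.Bo C r f) w)
    (ht' : t' ∈ FC.Facts (H35.FS.Aset C l g) (FC.Star C) (H35.CX.Bo C r f) w) :
    t'.1.length ≤ t.1.length ∧ t'.2.2.length ≤ t.2.2.length := by
  obtain ⟨⟨X, p, hX, hp, e1, hc⟩, hK, ⟨z, s, c, hcs, hs, e2, hb⟩, hw⟩ := ht
  obtain ⟨⟨X', p', hX', hp', e1', hc'⟩, hK', ⟨z', s', c', hcs', hs', e2', hb'⟩, hw'⟩ := ht'
  have l1 := congrArg List.length e1
  have l1' := congrArg List.length e1'
  have lw := congrArg List.length hw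
  have lw' := congrArg List.length hw'
  have hp0 : 0 < p'.length := List.length_pos_iff.2 hp'
  have hs0 : 0 < s'.length := List.length_pos_iff.2 hs'
  have E : l ++ (g ++ w ++ f) ++ (r ++ z) =
      X ++ (p ++ (t.1 ++ (t.2.1 ++ (t.2.2 ++ (s ++ c))))) := by
    calc l ++ (g ++ w ++ f) ++ (r ++ z) = (l ++ g) ++ w ++ (f ++ (r ++ z)) := by
          simp only [List.append_assoc]
      _ = (X ++ p) ++ (t.1 ++ (t.2.1 ++ t.2.2)) ++ (s ++ c) := by rw [e1, e2, hw]
      _ = _ := by simp only [List.append_assoc]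
  have E' : l ++ (g ++ w ++ f) ++ (r ++ z') =
      X' ++ (p' ++ (t'.1 ++ (t'.2.1 ++ (t'.2.2 ++ (s' ++ c'))))) := by
    calc l ++ (g ++ w ++ f) ++ (r ++ z') = (l ++ g) ++ w ++ (f ++ (r ++ z')) := by
          simp only [List.append_assoc]
      _ = (X' ++ p') ++ (t'.1 ++ (t'.2.1 ++ t'.2.2)) ++ (s' ++ c') := by rw [e1', e2', hw']
      _ = _ := by simp only [List.append_assoc]
  constructor
  · have key := ocut hS (w := g ++ w ++ f) (z := z) (z' := z') (x := X ++ (p ++ t.1))
      (y := t.2.1 ++ ((t.2.2 ++ s) ++ c)) (X := X') (c := p' ++ t'.1)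
      (Y := t'.2.1 ++ ((t'.2.2 ++ s') ++ c'))
      (FC.star_append hX (FC.star_of_mem hc))
      (FC.star_append hK (FC.star_append (FC.star_of_mem hb) hcs)) hX' hc'
      (FC.star_append hK' (FC.star_append (FC.star_of_mem hb') hcs'))
      (by rw [E]; simp only [List.append_assoc]) (by rw [E']; simp only [List.append_assoc])
      (by
        simp only [List.length_append] at l1 lw ⊢
        omega)
    simp only [List.length_append] at l1 l1' lw lw' key
    omega
  · have key := ocut hS (w := g ++ w ++ f) (z := z) (z' := z')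
      (x := (X ++ (p ++ t.1)) ++ t.2.1)
      (y := (t.2.2 ++ s) ++ c) (X := (X' ++ (p' ++ t'.1)) ++ t'.2.1) (c := t'.2.2 ++ s')
      (Y := c')
      (FC.star_append (FC.star_append hX (FC.star_of_mem hc)) hK)
      (FC.star_append (FC.star_of_mem hb) hcs)
      (FC.star_append (FC.star_append hX' (FC.star_of_mem hc')) hK') hb' hcs'
      (by rw [E]; simp only [List.append_assoc]) (by rw [E']; simp only [List.append_assoc])
      (by
        simp only [List.length_append] at l1 lw ⊢
        omega)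
    simp only [List.length_append] at l1 l1' lw lw' key
    omega

theorem fact_unique' (hS : Ctx C l r) {g f w : List α} {t t' : List α × List α × List α}
    (ht : t ∈ FC.Facts (H35.FS.Aset C l g) (FC.Star C) (H35.CX.Bo C r f) w)
    (ht' : t' ∈ FC.Facts (H35.FS.Aset C l g) (FC.Star C) (H35.CX.Bo C r f) w) : t = t' := by
  obtain ⟨h1, h2⟩ := fact_le' hS ht ht'
  obtain ⟨h3, h4⟩ := fact_le' hS ht' ht
  obtain ⟨u, c, v⟩ := t
  obtain ⟨u', c', v'⟩ := t'
  obtain ⟨hA, hK, hB, hw⟩ := ht
  obtain ⟨hA', hK', hB', hw'⟩ := ht'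
  simp only at h1 h2 h3 h4 hw hw'
  obtain ⟨e1, e2⟩ := List.append_inj (hw.trans hw'.symm) (le_antisymm h3 h1)
  obtain ⟨e3, e4⟩ := List.append_inj' e2 (le_antisymm h4 h2)
  rw [e1, e3, e4]

/-- The tilings for all contexts. -/
theorem tiles' (hS : Ctx C l r) (g f : List α) :
    FC.Tiles C (H35.FS.Aset C l g) (H35.CX.Bo C r f) (H35.CX.No C l r g f) := by
  intro w
  refine ⟨fun hw => ?_, fun hw => ?_⟩
  · ext t
    simp only [Set.mem_empty_iff_false, iff_false]
    exact fun ht => cover_no_fact' hS hw ht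
  · obtain ⟨z, hz, h⟩ := comp_ne hS (g ++ (w ++ f))
    have h' : l ++ (g ++ (w ++ (f ++ (r ++ z)))) ∈ FC.Star C := by
      simpa only [List.append_assoc] using h
    rcases H35.FY.cover_or (r := r ++ z) hS.code hS.lne (by simp [hz]) h' with
      h1 | ⟨t, hA, hK, hB, ht⟩
    · exact absurd ⟨z, h1⟩ hw
    · exact ⟨t, ⟨hA, hK, ⟨z, hB⟩, ht⟩,
        fun t' ht' => fact_unique' hS ht' ⟨hA, hK, ⟨z, hB⟩, ht⟩⟩

theorem nil_mem_aset' (hS : Ctx C l r) {g : List α} :
    [] ∈ H35.FS.Aset C l g ↔ l ++ g ∈ FC.Star C := by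
  constructor
  · rintro ⟨X, p, hX, hp, e, hc⟩
    rw [List.append_nil] at hc
    rw [e]
    exact FC.star_append hX (FC.star_of_mem hc)
  · exact fun h => H35.FY.nil_aset hS.code hS.lne h

theorem nil_mem_bo (hS : Ctx C l r) {f : List α} :
    [] ∈ H35.CX.Bo C r f ↔ ∃ z, f ++ (r ++ z) ∈ FC.Star C := by
  constructor
  · rintro ⟨z, s, y, hy, hs, e, hc⟩
    rw [List.nil_append] at hc
    exact ⟨z, e ▸ FC.star_append (FC.star_of_mem hc) hy⟩
  · rintro ⟨z, h⟩
    obtain ⟨k, hk, hkn⟩ := exists_cw hS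
    refine ⟨z ++ k, H35.FY.nil_bset hS.code (by simp [hkn]) ?_⟩
    have := FC.star_append h (FC.star_of_mem hk)
    simpa only [List.append_assoc] using this

/-- The instance of the abstract contexts. -/
theorem inst (hS : Ctx C l r) :
    H35.CX.Ctx C (H35.FS.Aset C l) (H35.CX.Bo C r) (H35.CX.No C l r) where
  fin := hS.fin
  code := hS.code
  cne := by
    obtain ⟨k, hk, -⟩ := exists_cw hS
    exact ⟨k, hk⟩
  finA := fun g => H35.FY.aset_fin hS.fin g
  finB := fun f => by
    refine (hS.fin.biUnion (t := fun c => {v | v ∈ c.inits}) (fun c _ => ?_)).subset ?_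
    · exact (List.finite_toSet c.inits)
    · rintro v ⟨z, s, y, hy, hs, h, hc⟩
      refine Set.mem_biUnion hc ?_
      show v ∈ (v ++ s).inits
      rw [List.mem_inits]
      exact List.prefix_append v s
  finN := fun g f => by
    refine (hS.fin.biUnion
      (t := fun c => {v | v ∈ (c.tails.map List.inits).flatten}) (fun c _ => ?_)).subset ?_
    · exact (List.finite_toSet _)
    · rintro u ⟨z, x, p, s, y, hx, hy, hp, hs, h1, h2, hc⟩
      refine Set.mem_biUnion hc ?_
      show u ∈ (((p ++ u ++ s).tails).map List.inits).flatten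
      rw [List.mem_flatten]
      refine ⟨(u ++ s).inits, List.mem_map.2 ⟨u ++ s, ?_, rfl⟩, ?_⟩
      · rw [List.mem_tails, List.append_assoc]
        exact List.suffix_append p _
      · rw [List.mem_inits]
        exact List.prefix_append u s
  neA := fun g => by
    obtain ⟨v, hv, -⟩ := hS.ex g
    exact ⟨v, hv⟩
  neB := fun f => by
    obtain ⟨z, hz, h⟩ := comp_ne hS f
    rcases FC.split α C _ _ h with ⟨hu, hv⟩ | ⟨X, p, s, Y, hX, hY, hp, hs, hps, e1, e2⟩
    · exact ⟨[], (nil_mem_bo hS).2 ⟨z, hv⟩⟩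
    · exact ⟨p, z, s, Y, hY, hs, e2, hps⟩
  tiles := tiles' hS
  rcA := fun g z => by
    rw [H35.CX.RC, nil_mem_aset' hS]
    constructor
    · intro h
      rw [← List.append_assoc] at h
      rcases FC.split α C _ _ h with ⟨hu, hv⟩ | ⟨X, p, s, Y, hX, hY, hp, hs, hps, e1, e2⟩
      · exact ⟨[], (nil_mem_aset' hS).2 hu, z, hv, by simp⟩
      · exact ⟨s, ⟨X, p, hX, hp, e1, hps⟩, Y, hY, e2.symm⟩
    · rintro ⟨s, ⟨X, p, hX, hp, e, hc⟩, c, hcs, rfl⟩
      have h : l ++ (g ++ (s ++ c)) = X ++ ((p ++ s) ++ c) := by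
        calc l ++ (g ++ (s ++ c)) = (l ++ g) ++ (s ++ c) := by simp only [List.append_assoc]
          _ = (X ++ p) ++ (s ++ c) := by rw [e]
          _ = _ := by simp only [List.append_assoc]
      rw [h]
      exact FC.star_append hX (FC.star_append (FC.star_of_mem hc) hcs)
  lcB := fun f z => by
    rw [H35.CX.LC, nil_mem_bo hS]
    constructor
    · rintro ⟨z', h⟩
      rw [List.append_assoc] at h
      rcases FC.split α C _ _ h with ⟨hu, hv⟩ | ⟨X, p, s, Y, hX, hY, hp, hs, hps, e1, e2⟩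
      · exact ⟨z, hu, [], (nil_mem_bo hS).2 ⟨z', hv⟩, by simp⟩
      · exact ⟨X, hX, p, ⟨z', s, Y, hY, hs, e2, hps⟩, e1.symm⟩
    · rintro ⟨c, hcs, b, ⟨z', s, y, hy, hs, e, hc⟩, rfl⟩
      refine ⟨z', ?_⟩
      have h : c ++ b ++ f ++ (r ++ z') = c ++ ((b ++ s) ++ y) := by
        calc c ++ b ++ f ++ (r ++ z') = c ++ b ++ (f ++ (r ++ z')) := by
              simp only [List.append_assoc]
          _ = c ++ b ++ (s ++ y) := by rw [e]
          _ = _ := by simp only [List.append_assoc]
      rw [h]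
      exact FC.star_append hcs (FC.star_append (FC.star_of_mem hc) hy)
  snA := fun g x v => by
    constructor
    · rintro ⟨X, p, hX, hp, e, hc⟩
      rcases List.eq_nil_or_concat p with rfl | ⟨p', a, rfl⟩
      · exact absurd rfl hp
      · rw [← List.append_assoc, List.concat_eq_append, ← List.append_assoc] at e
        obtain ⟨e1, e2⟩ := List.append_inj' e rfl
        obtain rfl : x = a := by simpa using e2
        rw [List.concat_eq_append, List.append_assoc] at hc
        by_cases hp' : p' = []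
        · subst hp'
          right
          rw [List.append_nil] at e1
          exact ⟨(nil_mem_aset' hS).2 (by rw [e1]; exact hX), hc⟩
        · left
          exact ⟨X, p', hX, hp', e1, hc⟩
    · rintro (⟨X, p, hX, hp, e, hc⟩ | ⟨h, hc⟩)
      · refine ⟨X, p ++ [x], hX, by simp, ?_, by rw [List.append_assoc]; exact hc⟩
        rw [← List.append_assoc, e, List.append_assoc]
      · exact ⟨l ++ g, [x], (nil_mem_aset' hS).1 h, by simp, by simp, hc⟩
  snB := fun f x v => by
    constructor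
    · rintro ⟨z, s, y, hy, hs, e, hc⟩
      rcases s with _ | ⟨a, s⟩
      · exact absurd rfl hs
      · rw [List.cons_append, List.cons_append, List.cons.injEq] at e
        obtain ⟨rfl, e⟩ := e
        by_cases hs' : s = []
        · subst hs'
          right
          exact ⟨(nil_mem_bo hS).2 ⟨z, by rw [e]; exact hy⟩, hc⟩
        · left
          exact ⟨z, s, y, hy, hs', e, by rw [List.append_assoc]; exact hc⟩
    · rintro (⟨z, s, y, hy, hs, e, hc⟩ | ⟨h, hc⟩)
      · refine ⟨z, x :: s, y, hy, by simp, by rw [List.cons_append, e, List.cons_append], ?_⟩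
        rw [List.append_assoc] at hc
        exact hc
      · obtain ⟨z, hz⟩ := (nil_mem_bo hS).1 h
        exact ⟨z, [x], f ++ (r ++ z), hz, by simp, by simp, hc⟩
  srA := fun g v => by
    rintro ⟨X, p, hX, hp, e, hc⟩
    refine ⟨p, hp, hc, fun h => (nil_mem_aset' hS).2 ?_⟩
    rw [e]
    exact FC.star_append hX h
  srB := fun f v => by
    rintro ⟨z, s, y, hy, hs, e, hc⟩
    refine ⟨s, hs, hc, fun h => (nil_mem_bo hS).2 ⟨z, ?_⟩⟩
    rw [e]
    exact FC.star_append h hy

/-- Every finite complete code has abstract contexts. -/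
theorem exists_ctx (hfin : C.Finite) (hC : FC.IsCode C) (hne : C.Nonempty)
    (hcomp : ∀ w : List α, ∃ u v : List α, u ++ (w ++ v) ∈ FC.Star C) :
    ∃ (A B : List α → Set (List α)) (N : List α → List α → Set (List α)),
      H35.CX.Ctx C A B N := by
  obtain ⟨l, r, hl, hln, h⟩ := H89.ML.ctx hfin hC hne (fun w => by
    obtain ⟨u, v, h⟩ := hcomp w
    exact ⟨u, v, by rw [List.append_assoc]; exact h⟩)
  have hS : Ctx C l r := ⟨hfin, hC, hl, hln, fun w => (h w).exists,
    fun w v v' h1 h2 h3 h4 => (h w).unique ⟨h1, h2⟩ ⟨h3, h4⟩⟩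
  exact ⟨_, _, _, inst hS⟩

end Pool.Agent.H47.OP
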