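import Pool.Agent.H35.FC.Base

/-!
# The tiling from a closed left context and an open right context

`l` is a nonempty word of `C*`, and for every word `w` exactly one completion `v` of `l w` is such
that `r` is a prefix of a word of `v C*`.
-/

set_option autoImplicit false

namespace Pool.Agent.H47.OP

open Pool.Agent.H35 (FC.IsCode FC.Facts FC.Tiles FC.Star FC.star_nil FC.star_append
  FC.star_of_mem FC.split FC.cut)

variable {α : Type} {C : Set (List α)} {l r : List α}

/-- The words which complete the last codeword of a parse of `x`. -/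
def T (C : Set (List α)) (x : List α) : Set (List α) :=
  {v | ∃ X p : List α, X ∈ FC.Star C ∧ p ≠ [] ∧ x = X ++ p ∧ p ++ v ∈ C}

/-- `r` is a prefix of a word of `v C*`. -/
def Acc (C : Set (List α)) (r v : List α) : Prop :=
  ∃ z c : List α, c ∈ FC.Star C ∧ r ++ z = v ++ c

/-- A closed left context and an open right context. -/
structure Ctx (C : Set (List α)) (l r : List α) : Prop where
  fin : C.Finite
  code : FC.IsCode C
  lmem : l ∈ FC.Star C
  lne : l ≠ []
  ex : ∀ w, ∃ v, v ∈ T C (l ++ w) ∧ Acc C r v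
  uq : ∀ w v v', v ∈ T C (l ++ w) → Acc C r v → v' ∈ T C (l ++ w) → Acc C r v' → v = v'

/-- The words from which a codeword goes on into the right context. -/
def P0 (C : Set (List α)) (r : List α) : Set (List α) :=
  {v | ∃ s : List α, s ≠ [] ∧ v ++ s ∈ C ∧ Acc C r s}

/-- The words covered by one codeword which meets both contexts. -/
def N0 (C : Set (List α)) (l r : List α) : Set (List α) :=
  {u | ∃ X p s : List α, X ∈ FC.Star C ∧ p ≠ [] ∧ s ≠ [] ∧ l = X ++ p ∧ p ++ u ++ s ∈ C ∧
    Acc C r s}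

/-- a nonempty word of `C*` ends with a codeword -/
theorem last_cw {u : List α} (hu : u ∈ FC.Star C) (hn : u ≠ []) :
    ∃ x p, x ∈ FC.Star C ∧ p ∈ C ∧ u = x ++ p := by
  obtain ⟨L, hL, rfl⟩ := hu
  rcases List.eq_nil_or_concat L with rfl | ⟨M, p, rfl⟩
  · simp at hn
  · exact ⟨M.flatten, p, ⟨M, fun c hc => hL c (by simp [hc]), rfl⟩, hL p (by simp), by simp⟩

/-- a nonempty word of `C*` begins with a codeword -/
theorem first_cw {u : List α} (hu : u ∈ FC.Star C) (hn : u ≠ []) :
    ∃ s y, s ∈ C ∧ y ∈ FC.Star C ∧ u = s ++ y := by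
  obtain ⟨L, hL, rfl⟩ := hu
  rcases L with _ | ⟨s, M⟩
  · simp at hn
  · exact ⟨s, M.flatten, hL s (by simp), ⟨M, fun c hc => hL c (by simp [hc]), rfl⟩, by simp⟩

theorem nil_mem_T (hC : FC.IsCode C) {W : List α} (h : W ∈ FC.Star C) (hn : W ≠ []) :
    [] ∈ T C W := by
  obtain ⟨x, p, hx, hp, e⟩ := last_cw h hn
  refine ⟨x, p, hx, ?_, e, by simpa using hp⟩
  rintro rfl
  exact hC.1 hp

/-- A parse of `W r z` restricts to a parse of `W v`. -/
theorem restr (hC : FC.IsCode C) {W z x y : List α} (hW : W ≠ []) (hx : x ∈ FC.Star C)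
    (hy : y ∈ FC.Star C) (h : W ++ (r ++ z) = x ++ y) (hle : x.length ≤ W.length) :
    ∃ v y', v ∈ T C W ∧ Acc C r v ∧ y' ∈ FC.Star C ∧ W ++ v = x ++ y' := by
  obtain ⟨t, h1, h2⟩ : ∃ t, W = x ++ t ∧ y = t ++ (r ++ z) := by
    rcases List.append_eq_append_iff.1 h with ⟨t, h1, h2⟩ | ⟨t, h1, h2⟩
    · have h3 := congrArg List.length h1
      rw [List.length_append] at h3
      have h4 : t = [] := List.length_eq_zero_iff.1 (by omega)
      subst h4
      refine ⟨[], by simpa using h1.symm, by simpa using h2.symm⟩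
    · exact ⟨t, h1, h2⟩
  rw [h2] at hy
  rcases FC.split α C t (r ++ z) hy with ⟨h3, h4⟩ | ⟨X, p, s, Y, hX, hY, hp, hs, hps, e1, e2⟩
  · refine ⟨[], t, nil_mem_T hC ?_ hW, ⟨z, r ++ z, h4, by simp⟩, h3, by simpa using h1⟩
    rw [h1]
    exact FC.star_append hx h3
  · refine ⟨s, X ++ (p ++ s), ⟨x ++ X, p, FC.star_append hx hX, hp, ?_, hps⟩, ⟨z, Y, hY, e2⟩,
      FC.star_append hX (FC.star_of_mem hps), ?_⟩
    · rw [h1, e1, List.append_assoc]
    · rw [h1, e1]
      simp only [List.append_assoc]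

/-- A parse with a codeword which begins inside `W` restricts to a parse of `W v`. -/
theorem restr' (hC : FC.IsCode C) {W z X c Y : List α} (hW : W ≠ []) (hX : X ∈ FC.Star C)
    (hc : c ∈ C) (hY : Y ∈ FC.Star C) (h : W ++ (r ++ z) = X ++ (c ++ Y))
    (hlt : X.length < W.length) :
    ∃ v y', v ∈ T C W ∧ Acc C r v ∧ y' ∈ FC.Star C ∧ W ++ v = X ++ (c ++ y') := by
  obtain ⟨t, h1, h2⟩ : ∃ t, W = X ++ t ∧ c ++ Y = t ++ (r ++ z) := by
    rcases List.append_eq_append_iff.1 h with ⟨t, h1, h2⟩ | ⟨t, h1, h2⟩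
    · have h3 := congrArg List.length h1
      rw [List.length_append] at h3
      omega
    · exact ⟨t, h1, h2⟩
  have ht : t ≠ [] := by
    rintro rfl
    have h3 := congrArg List.length h1
    simp at h3
    omega
  rcases List.append_eq_append_iff.1 h2 with ⟨t', h3, h4⟩ | ⟨c', h3, h4⟩
  · -- t = c ++ t'
    obtain ⟨v, y', h5, h6, h7, h8⟩ := restr (r := r) (z := z) (x := X ++ c) (y := Y) hC hW
      (FC.star_append hX (FC.star_of_mem hc)) hY (by rw [h, List.append_assoc]) (by
        have h9 := congrArg List.length h1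
        rw [h3] at h9
        simp only [List.length_append] at h9 ⊢
        omega)
    exact ⟨v, y', h5, h6, h7, by rw [h8, List.append_assoc]⟩
  · -- c = t ++ c'
    refine ⟨c', [], ⟨X, t, hX, ht, h1, h3 ▸ hc⟩, ⟨z, Y, hY, h4⟩, FC.star_nil, ?_⟩
    rw [h1, h3]
    simp only [List.append_assoc, List.append_nil]

/-- The cuts before the end of `l w` do not depend on the word behind `l w r`. -/
theorem ocut (hS : Ctx C l r) {w z z' x y X c Y : List α} (hx : x ∈ FC.Star C)
    (hy : y ∈ FC.Star C) (hX : X ∈ FC.Star C) (hc : c ∈ C) (hY : Y ∈ FC.Star C)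
    (h : l ++ w ++ (r ++ z) = x ++ y) (h' : l ++ w ++ (r ++ z') = X ++ (c ++ Y))
    (hle : x.length ≤ (l ++ w).length) :
    x.length ≤ X.length ∨ X.length + c.length ≤ x.length := by
  by_cases hlt : X.length < (l ++ w).length
  · have hW : l ++ w ≠ [] := by simp [hS.lne]
    obtain ⟨v, y1, h1, h2, h3, h4⟩ := restr hS.code hW hx hy h hle
    obtain ⟨v', y2, h5, h6, h7, h8⟩ := restr' hS.code hW hX hc hY h' hlt
    have h9 := hS.uq w v v' h1 h2 h5 h6
    subst h9
    exact FC.cut α C hS.code x y1 X c y2 hx h3 hX hc h7 (h4.symm.trans h8)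
  · left
    omega

/-- Existence: a word is covered or has a factorization. -/
theorem cover_or_fact (hS : Ctx C l r) (w : List α) :
    w ∈ N0 C l r ∨ ∃ t, t ∈ FC.Facts (T C l) (FC.Star C) (P0 C r) w := by
  obtain ⟨v, ⟨X0, p0, hX0, hp0, e0, hc0⟩, z0, c0, hcs, e⟩ := hS.ex w
  obtain ⟨-, k, -, hk, -⟩ := last_cw hS.lmem hS.lne
  have hkn : k ≠ [] := by
    rintro rfl
    exact hS.code.1 hk
  obtain ⟨Z, hZ⟩ : ∃ Z, Z = r ++ (z0 ++ k) := ⟨_, rfl⟩
  have hZn : Z ≠ [] := by simp [hZ, hkn]
  have h2 : l ++ (w ++ Z) ∈ FC.Star C := by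
    have h3 : l ++ (w ++ Z) = X0 ++ ((p0 ++ v) ++ (c0 ++ k)) := by
      calc l ++ (w ++ Z) = (l ++ w) ++ ((r ++ z0) ++ k) := by
            rw [hZ]; simp only [List.append_assoc]
        _ = (X0 ++ p0) ++ ((v ++ c0) ++ k) := by rw [e0, e]
        _ = _ := by simp only [List.append_assoc]
    rw [h3]
    exact FC.star_append hX0 (FC.star_append (FC.star_of_mem hc0)
      (FC.star_append hcs (FC.star_of_mem hk)))
  have hacc : ∀ s Y : List α, Y ∈ FC.Star C → Z = s ++ Y → Acc C r s := fun s Y hY h =>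
    ⟨z0 ++ k, Y, hY, by rw [← hZ, h]⟩
  have hnil : Z ∈ FC.Star C → [] ∈ P0 C r := by
    intro h
    obtain ⟨s, Y, hs, hY, e1⟩ := first_cw h hZn
    refine ⟨s, ?_, by simpa using hs, hacc s Y hY e1⟩
    rintro rfl
    exact hS.code.1 hs
  rcases FC.split α C _ _ h2 with ⟨hu, hv⟩ | ⟨X, p, s, Y, hX, hY, hp, hs, hps, e1, e2⟩
  · have hA : [] ∈ T C l := nil_mem_T hS.code hS.lmem hS.lne
    rcases FC.split α C _ _ hv with ⟨hw, hf⟩ | ⟨X, p, s, Y, hX, hY, hp, hs, hps, e1, e2⟩
    · right
      exact ⟨([], w, []), hA, hw, hnil hf, by simp⟩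
    · right
      refine ⟨([], X, p), hA, hX, ⟨s, hs, hps, hacc s Y hY e2⟩, ?_⟩
      simp only [List.nil_append]
      exact e1.symm
  · rcases List.append_eq_append_iff.1 e2 with ⟨s', h3, h4⟩ | ⟨w', h3, h4⟩
    · -- s = w ++ s'
      by_cases hs' : s' = []
      · right
        subst hs'
        rw [List.append_nil] at h3
        rw [List.nil_append] at h4
        refine ⟨(w, [], []), ⟨X, p, hX, hp, e1, by rw [← h3]; exact hps⟩, FC.star_nil,
          hnil (by rw [h4]; exact hY), by simp⟩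
      · left
        refine ⟨X, p, s', hX, hp, hs', e1, ?_, hacc s' Y hY h4⟩
        rw [List.append_assoc, ← h3]
        exact hps
    · -- w = s ++ w'
      right
      have hA : s ∈ T C l := ⟨X, p, hX, hp, e1, hps⟩
      rw [h4] at hY
      rcases FC.split α C _ _ hY with
        ⟨hw, hf⟩ | ⟨X', p', s', Y', hX', hY', hp', hs', hps', e1', e2'⟩
      · refine ⟨(s, w', []), hA, hw, hnil hf, ?_⟩
        simp only [List.append_nil]
        exact h3.symm
      · refine ⟨(s, X', p'), hA, hX', ⟨s', hs', hps', hacc s' Y' hY' e2'⟩, ?_⟩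
        show s ++ (X' ++ p') = w
        rw [← e1', h3]

/-- A covered word has no factorization. -/
theorem cover_no_fact (hS : Ctx C l r) {w : List α} (hw : w ∈ N0 C l r)
    {t : List α × List α × List α} (ht : t ∈ FC.Facts (T C l) (FC.Star C) (P0 C r) w) :
    False := by
  obtain ⟨X, p, s, hX, hp, hs, e1, hc, z, c, hcs, e2⟩ := hw
  obtain ⟨⟨X', p', hX', hp', e1', hc'⟩, hK, ⟨s', hs', hb, z', c', hcs', e2'⟩, hw'⟩ := ht
  have l1 := congrArg List.length e1
  have l1' := congrArg List.length e1'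
  have lw := congrArg List.length hw'
  have hp0 : 0 < p.length := List.length_pos_iff.2 hp
  have hs0 : 0 < s.length := List.length_pos_iff.2 hs
  have key := ocut hS (w := w) (z := z') (z' := z) (x := X' ++ (p' ++ t.1))
    (y := t.2.1 ++ ((t.2.2 ++ s') ++ c')) (X := X) (c := p ++ w ++ s) (Y := c)
    (FC.star_append hX' (FC.star_of_mem hc'))
    (FC.star_append hK (FC.star_append (FC.star_of_mem hb) hcs')) hX hc hcs
    (by
      calc l ++ w ++ (r ++ z') = (X' ++ p') ++ (t.1 ++ (t.2.1 ++ t.2.2)) ++ (s' ++ c') := by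
            rw [← e1', e2', hw']
        _ = _ := by simp only [List.append_assoc])
    (by
      calc l ++ w ++ (r ++ z) = (X ++ p) ++ w ++ (s ++ c) := by rw [← e1, e2]
        _ = _ := by simp only [List.append_assoc])
    (by
      simp only [List.length_append] at l1' lw ⊢
      omega)
  simp only [List.length_append] at l1 l1' lw key
  omega

/-- Comparison of two factorizations. -/
theorem fact_le (hS : Ctx C l r) {w : List α} {t t' : List α × List α × List α}
    (ht : t ∈ FC.Facts (T C l) (FC.Star C) (P0 C r) w)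
    (ht' : t' ∈ FC.Facts (T C l) (FC.Star C) (P0 C r) w) :
    t'.1.length ≤ t.1.length ∧ t'.2.2.length ≤ t.2.2.length := by
  obtain ⟨⟨X, p, hX, hp, e1, hc⟩, hK, ⟨s, hs, hb, z, c, hcs, e2⟩, hw⟩ := ht
  obtain ⟨⟨X', p', hX', hp', e1', hc'⟩, hK', ⟨s', hs', hb', z', c', hcs', e2'⟩, hw'⟩ := ht'
  have l1 := congrArg List.length e1
  have l1' := congrArg List.length e1'
  have lw := congrArg List.length hw
  have lw' := congrArg List.length hw'
  have hp0 : 0 < p'.length := List.length_pos_iff.2 hp'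
  have hs0 : 0 < s'.length := List.length_pos_iff.2 hs'
  have E : l ++ w ++ (r ++ z) = X ++ (p ++ (t.1 ++ (t.2.1 ++ (t.2.2 ++ (s ++ c))))) := by
    calc l ++ w ++ (r ++ z) = (X ++ p) ++ (t.1 ++ (t.2.1 ++ t.2.2)) ++ (s ++ c) := by
          rw [← e1, e2, hw]
      _ = _ := by simp only [List.append_assoc]
  have E' : l ++ w ++ (r ++ z') =
      X' ++ (p' ++ (t'.1 ++ (t'.2.1 ++ (t'.2.2 ++ (s' ++ c'))))) := by
    calc l ++ w ++ (r ++ z') = (X' ++ p') ++ (t'.1 ++ (t'.2.1 ++ t'.2.2)) ++ (s' ++ c') := by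
          rw [← e1', e2', hw']
      _ = _ := by simp only [List.append_assoc]
  constructor
  · have key := ocut hS (w := w) (z := z) (z' := z') (x := X ++ (p ++ t.1))
      (y := t.2.1 ++ ((t.2.2 ++ s) ++ c)) (X := X') (c := p' ++ t'.1)
      (Y := t'.2.1 ++ ((t'.2.2 ++ s') ++ c'))
      (FC.star_append hX (FC.star_of_mem hc))
      (FC.star_append hK (FC.star_append (FC.star_of_mem hb) hcs)) hX' hc'
      (FC.star_append hK' (FC.star_append (FC.star_of_mem hb') hcs'))
      (by rw [E]; simp only [List.append_assoc]) (by rw [E']; simp only [List.append_assoc])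
      (by
        simp only [List.length_append] at l1 lw ⊢
        omega)
    simp only [List.length_append] at l1 l1' lw lw' key
    omega
  · have key := ocut hS (w := w) (z := z) (z' := z') (x := (X ++ (p ++ t.1)) ++ t.2.1)
      (y := (t.2.2 ++ s) ++ c) (X := (X' ++ (p' ++ t'.1)) ++ t'.2.1) (c := t'.2.2 ++ s')
      (Y := c')
      (FC.star_append (FC.star_append hX (FC.star_of_mem hc)) hK)
      (FC.star_append (FC.star_of_mem hb) hcs)
      (FC.star_append (FC.star_append hX' (FC.star_of_mem hc')) hK') hb' hcs'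
      (by rw [E]; simp only [List.append_assoc]) (by rw [E']; simp only [List.append_assoc])
      (by
        simp only [List.length_append] at l1 lw ⊢
        omega)
    simp only [List.length_append] at l1 l1' lw lw' key
    omega

theorem fact_unique (hS : Ctx C l r) {w : List α} {t t' : List α × List α × List α}
    (ht : t ∈ FC.Facts (T C l) (FC.Star C) (P0 C r) w)
    (ht' : t' ∈ FC.Facts (T C l) (FC.Star C) (P0 C r) w) : t = t' := by
  obtain ⟨h1, h2⟩ := fact_le hS ht ht'
  obtain ⟨h3, h4⟩ := fact_le hS ht' ht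
  obtain ⟨u, c, v⟩ := t
  obtain ⟨u', c', v'⟩ := t'
  obtain ⟨hA, hK, hB, hw⟩ := ht
  obtain ⟨hA', hK', hB', hw'⟩ := ht'
  simp only at h1 h2 h3 h4 hw hw'
  obtain ⟨e1, e2⟩ := List.append_inj (hw.trans hw'.symm) (le_antisymm h3 h1)
  obtain ⟨e3, e4⟩ := List.append_inj' e2 (le_antisymm h4 h2)
  rw [e1, e3, e4]

/-- The tiling. -/
theorem tiles (hS : Ctx C l r) : FC.Tiles C (T C l) (P0 C r) (N0 C l r) := by
  intro w
  refine ⟨fun hw => ?_, fun hw => ?_⟩
  · ext t
    simp only [Set.mem_empty_iff_false, iff_false]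
    exact fun ht => cover_no_fact hS hw ht
  · rcases cover_or_fact hS w with h | ⟨t, ht⟩
    · exact absurd h hw
    · exact ⟨t, ht, fun t' ht' => fact_unique hS ht' ht⟩

/-! ### Finiteness -/

theorem T_finite (hf : C.Finite) (x : List α) : (T C x).Finite := by
  refine (hf.biUnion (t := fun c => {v | v ∈ c.tails}) (fun c _ => ?_)).subset ?_
  · exact (List.finite_toSet c.tails)
  · rintro v ⟨x, p, hx, hp, h, hc⟩
    refine Set.mem_biUnion hc ?_
    show v ∈ (p ++ v).tails
    rw [List.mem_tails]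
    exact List.suffix_append p v

theorem P0_finite (hf : C.Finite) (r : List α) : (P0 C r).Finite := by
  refine (hf.biUnion (t := fun c => {v | v ∈ c.inits}) (fun c _ => ?_)).subset ?_
  · exact (List.finite_toSet c.inits)
  · rintro v ⟨s, hs, hc, -⟩
    refine Set.mem_biUnion hc ?_
    show v ∈ (v ++ s).inits
    rw [List.mem_inits]
    exact List.prefix_append v s

theorem N0_finite (hf : C.Finite) (l r : List α) : (N0 C l r).Finite := by
  refine (hf.biUnion
    (t := fun c => {v | v ∈ (c.tails.map List.inits).flatten}) (fun c _ => ?_)).subset ?_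
  · exact (List.finite_toSet _)
  · rintro u ⟨x, p, s, hx, hp, hs, h1, hc, -⟩
    refine Set.mem_biUnion hc ?_
    show u ∈ (((p ++ u ++ s).tails).map List.inits).flatten
    rw [List.mem_flatten]
    refine ⟨(u ++ s).inits, List.mem_map.2 ⟨u ++ s, ?_, rfl⟩, ?_⟩
    · rw [List.mem_tails, List.append_assoc]
      exact List.suffix_append p _
    · rw [List.mem_inits]
      exact List.prefix_append u s

/-- The tiling, with finite sets of words. -/
theorem exists_tiling_of_ctx {C : Finset (List α)} {l r : List α}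
    (hS : Ctx (C : Set (List α)) l r) :
    ∃ S P N : Finset (List α), FC.Tiles (C : Set (List α)) (S : Set (List α)) (P : Set (List α))
      (N : Set (List α)) ∧ (∀ s ∈ S, ∃ p, p ++ s ∈ C) ∧ (∀ t ∈ P, ∃ s, t ++ s ∈ C) ∧
      (∀ u ∈ N, ∃ p s, p ++ u ++ s ∈ C) := by
  refine ⟨(T_finite hS.fin l).toFinset, (P0_finite hS.fin r).toFinset,
    (N0_finite hS.fin l r).toFinset, ?_, ?_, ?_, ?_⟩
  · rw [Set.Finite.coe_toFinset, Set.Finite.coe_toFinset, Set.Finite.coe_toFinset]
    exact tiles hS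
  · intro s hs
    rw [Set.Finite.mem_toFinset] at hs
    obtain ⟨X, p, -, -, -, h⟩ := hs
    exact ⟨p, h⟩
  · intro t ht
    rw [Set.Finite.mem_toFinset] at ht
    obtain ⟨s, -, h, -⟩ := ht
    exact ⟨s, h⟩
  · intro u hu
    rw [Set.Finite.mem_toFinset] at hu
    obtain ⟨X, p, s, -, -, -, -, h, -⟩ := hu
    exact ⟨p, s, h⟩

end Pool.Agent.H47.OP
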